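import Pool.Agent.Q35.PX.Stm
import Pool.Agent.Y374.PF.Zero
import Pool.Agent.Y374.PF.Degree

/-!
# Pfaffian formats: the count of the fixed coordinates
-/

set_option autoImplicit false

namespace Pool.Agent.Q35.PX

open MvPolynomial Finset

variable {k : Type} [Field k]

/-- restriction to a coordinate subspace -/
noncomputable def res {N : ℕ} (T : Finset (Fin N)) :
    MvPolynomial (Fin N) k →ₐ[k] MvPolynomial {i // i ∈ T} k :=
  aeval fun i => if h : i ∈ T then X ⟨i, h⟩ else 0

/-- extension by zero -/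
def ext0 {N : ℕ} (T : Finset (Fin N)) (q : {i // i ∈ T} → k) : Fin N → k :=
  fun i => if h : i ∈ T then q ⟨i, h⟩ else 0

theorem ext0_of_not_mem {N : ℕ} {T : Finset (Fin N)} (q : {i // i ∈ T} → k) {i : Fin N}
    (hi : i ∉ T) : ext0 T q i = 0 := by
  simp [ext0, hi]

theorem eval_res {N : ℕ} (T : Finset (Fin N)) (q : {i // i ∈ T} → k)
    (a : MvPolynomial (Fin N) k) : eval q (res T a) = eval (ext0 T q) a := by
  induction a using MvPolynomial.induction_on with
  | C c => simp [res]
  | add a b ha hb => simp only [map_add, ha, hb]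
  | mul_X a i ha =>
    rw [map_mul, map_mul, map_mul, ha, eval_X]
    congr 1
    simp only [res, aeval_X, ext0]
    split_ifs <;> simp

theorem res_hom {N : ℕ} (T : Finset (Fin N)) {w : Fin N → ℕ} {a : MvPolynomial (Fin N) k} {m : ℕ}
    (ha : IsWeightedHomogeneous w a m) :
    IsWeightedHomogeneous (fun i : {i // i ∈ T} => w i.1) (res T a) m := by
  classical
  rw [a.as_sum, map_sum]
  refine IsWeightedHomogeneous.sum _ _ _ (fun d hd => ?_)
  have h1 : Finsupp.weight w d = m := ha (mem_support_iff.1 hd)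
  have h2 : res T (monomial d (coeff d a)) = C (coeff d a) *
      ∏ i ∈ d.support, (if h : i ∈ T then X ⟨i, h⟩ else 0 : MvPolynomial {i // i ∈ T} k) ^ d i := by
    unfold res
    rw [aeval_monomial]
    rfl
  rw [h2, ← h1]
  have h3 : Finsupp.weight w d = 0 + ∑ i ∈ d.support, d i • w i := by
    rw [zero_add, Finsupp.weight_apply]
    rfl
  rw [h3]
  refine (isWeightedHomogeneous_C _ _).mul ?_
  refine IsWeightedHomogeneous.prod _ _ _ (fun i _ => ?_)
  split_ifs with h
  · exact (isWeightedHomogeneous_X k (fun i : {i // i ∈ T} => w i.1) ⟨i, h⟩).pow (d i)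
  · rcases Nat.eq_zero_or_pos (d i) with h4 | h4
    · rw [h4, pow_zero, zero_smul]
      exact isWeightedHomogeneous_one _ _
    · rw [zero_pow h4.ne']
      exact isWeightedHomogeneous_zero _ _ _

/-- the generic alternating matrix with support in `E` -/
noncomputable def gm {n : ℕ} (E : Finset (Fin n × Fin n)) :
    Matrix (Fin n) (Fin n) (MvPolynomial {x // x ∈ E} k) := by
  classical
  exact fun a b => if h : (a, b) ∈ E then X ⟨(a, b), h⟩ else
    if h' : (b, a) ∈ E then - X ⟨(b, a), h'⟩ else 0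

/-- the evaluation of the generic matrix -/
theorem aeval_gm {n : ℕ} {E : Finset (Fin n × Fin n)} {A : Type} [CommRing A] [Algebra k A]
    (Y : Matrix (Fin n) (Fin n) A) (hskew : ∀ a b, Y b a = - Y a b)
    (hsupp : ∀ a b, (a, b) ∉ E → (b, a) ∉ E → Y a b = 0) (a b : Fin n) :
    aeval (fun x : {x // x ∈ E} => Y x.1.1 x.1.2) (gm (k := k) E a b) = Y a b := by
  unfold gm
  split_ifs with h h'
  · rw [aeval_X]
  · rw [map_neg, aeval_X]
    exact (hskew b a).symm
  · rw [map_zero, hsupp a b h h']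

theorem gm_hom {n : ℕ} {E : Finset (Fin n × Fin n)} (e : Fin n → ℤ) (ε : ℤ) (a b : Fin n) :
    IsWeightedHomogeneous (fun x : {x // x ∈ E} => (e x.1.1 + e x.1.2 + ε).toNat)
      (gm (k := k) E a b) (e a + e b + ε).toNat := by
  unfold gm
  split_ifs with h h'
  · exact isWeightedHomogeneous_X k (fun x : {x // x ∈ E} => (e x.1.1 + e x.1.2 + ε).toNat)
      ⟨(a, b), h⟩
  · have h1 := isWeightedHomogeneous_X k
      (fun x : {x // x ∈ E} => (e x.1.1 + e x.1.2 + ε).toNat) ⟨(b, a), h'⟩
    have h2 : (e a + e b + ε).toNat = (e b + e a + ε).toNat := by rw [add_comm (e a)]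
    rw [h2, ← mem_weightedHomogeneousSubmodule]
    exact Submodule.neg_mem _ ((mem_weightedHomogeneousSubmodule _ _ _ _).2 h1)
  · exact isWeightedHomogeneous_zero _ _ _

theorem gm_pos {n : ℕ} {E : Finset (Fin n × Fin n)} (hE : ∀ x ∈ E, x.1 < x.2) {e : Fin n → ℤ}
    {ε : ℤ} (hpos : ∀ a b, a ≠ b → 0 < e a + e b + ε) (a b : Fin n) (h : gm (k := k) E a b ≠ 0) :
    0 < e a + e b + ε := by
  apply hpos
  rintro rfl
  apply h
  unfold gm
  have h1 : (a, a) ∉ E := fun h2 => lt_irrefl _ (hE _ h2)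
  rw [dif_neg h1, dif_neg h1]

theorem minor_hom {n : ℕ} {E : Finset (Fin n × Fin n)} (hE : ∀ x ∈ E, x.1 < x.2) {e : Fin n → ℤ}
    {ε : ℤ} (hpos : ∀ a b, a ≠ b → 0 < e a + e b + ε) {r : ℕ} (R C : Fin r → Fin n) :
    IsWeightedHomogeneous (fun x : {x // x ∈ E} => (e x.1.1 + e x.1.2 + ε).toNat)
      ((gm (k := k) E).submatrix R C).det (∑ i, (e (R i) + e (C i) + ε)).toNat := by
  classical
  rw [Matrix.det_apply]
  refine IsWeightedHomogeneous.sum _ _ _ (fun σ _ => ?_)
  have key : IsWeightedHomogeneous (fun x : {x // x ∈ E} => (e x.1.1 + e x.1.2 + ε).toNat)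
      (∏ i, (gm (k := k) E).submatrix R C (σ i) i) (∑ i, (e (R i) + e (C i) + ε)).toNat := by
    by_cases h0 : ∀ i, (gm (k := k) E).submatrix R C (σ i) i ≠ 0
    · have h1 : (∑ i, (e (R i) + e (C i) + ε)).toNat
          = ∑ i, (e (R (σ i)) + e (C i) + ε).toNat := by
        have h2 : ∀ i, ((e (R (σ i)) + e (C i) + ε).toNat : ℤ) = e (R (σ i)) + e (C i) + ε :=
          fun i => Int.toNat_of_nonneg (gm_pos hE hpos _ _ (h0 i)).le
        have h3 : ((∑ i, (e (R (σ i)) + e (C i) + ε).toNat : ℕ) : ℤ)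
            = ∑ i, (e (R i) + e (C i) + ε) := by
          rw [Nat.cast_sum, Finset.sum_congr rfl (fun i _ => h2 i)]
          simp only [Finset.sum_add_distrib]
          rw [Equiv.sum_comp σ (fun i => e (R i))]
        rw [← h3, Int.toNat_natCast]
      rw [h1]
      exact IsWeightedHomogeneous.prod _ _ _ (fun i _ => gm_hom e ε _ _)
    · push Not at h0
      obtain ⟨i, hi⟩ := h0
      have h1 : (∏ i, (gm (k := k) E).submatrix R C (σ i) i) = 0 :=
        Finset.prod_eq_zero (f := fun i => (gm (k := k) E).submatrix R C (σ i) i)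
          (Finset.mem_univ i) hi
      exact h1 ▸ isWeightedHomogeneous_zero _ _ _
  rw [← mem_weightedHomogeneousSubmodule] at key ⊢
  rcases Int.units_eq_one_or (Equiv.Perm.sign σ) with h | h
  · rw [h, one_smul]; exact key
  · rw [h, Units.neg_smul, one_smul]
    exact Submodule.neg_mem _ key

/-- if all minors of size `r` vanish, so do all minors of size `r + 1` -/
theorem det_succ_zero {A : Type} [CommRing A] {n r : ℕ} (Y : Matrix (Fin n) (Fin n) A)
    (h : ∀ R C : Fin r → Fin n, (Y.submatrix R C).det = 0) (R C : Fin (r + 1) → Fin n) :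
    (Y.submatrix R C).det = 0 := by
  rw [Matrix.det_succ_row_zero]
  refine Finset.sum_eq_zero (fun j _ => ?_)
  rw [Matrix.submatrix_submatrix, h, mul_zero]

theorem det_zero_of_rank {K : Type} [Field K] {n r : ℕ} (Y : Matrix (Fin n) (Fin n) K)
    (hr : Y.rank < r) (R C : Fin r → Fin n) : (Y.submatrix R C).det = 0 := by
  classical
  by_contra hdet
  have h1 : (Y.submatrix R C).rank = r := by
    rw [Matrix.rank_of_isUnit _ ((Matrix.isUnit_iff_isUnit_det _).2 (isUnit_iff_ne_zero.2 hdet)),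
      Fintype.card_fin]
  have h2 : Y.submatrix R C = (1 : Matrix (Fin n) (Fin n) K).submatrix R id * Y *
      (1 : Matrix (Fin n) (Fin n) K).submatrix id C := by
    ext i j
    simp [Matrix.mul_apply, Matrix.one_apply]
  have h3 : (Y.submatrix R C).rank ≤ Y.rank := by
    rw [h2]
    exact (Matrix.rank_mul_le_left _ _).trans (Matrix.rank_mul_le_right _ _)
  omega

end Pool.Agent.Q35.PX
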