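import Pool.Agent.Q35.PX.Cnt

/-!
# Pfaffian formats: the count of the fixed coordinates for one matching
-/

set_option autoImplicit false

namespace Pool.Agent.Q35.PX

open MvPolynomial Finset

variable {k : Type} [Field k]

/-- the pairs with `z a z b = τ` -/
noncomputable def edges {n : ℕ} (z : Fin n → kˣ) (τ : kˣ) : Finset (Fin n × Fin n) := by
  classical
  exact univ.filter fun x => x.1 < x.2 ∧ z x.1 * z x.2 = τ

theorem mem_edges {n : ℕ} {z : Fin n → kˣ} {τ : kˣ} {x : Fin n × Fin n} :
    x ∈ edges z τ ↔ x.1 < x.2 ∧ z x.1 * z x.2 = τ := by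
  classical
  simp [edges]

theorem count (hDim : S_Dim) (hGen : S_Gen) [IsAlgClosed k] [CharZero k] {N n q : ℕ}
    {w : Fin N → ℕ} (hw : ∀ i, 0 < w i) {e : Fin n → ℤ} {ε : ℤ}
    (hpos : ∀ a b, a ≠ b → 0 < e a + e b + ε)
    (M : Matrix (Fin n) (Fin n) (MvPolynomial (Fin N) k)) (hdiag : ∀ a, M a a = 0)
    (hskew : ∀ a b, M b a = - M a b)
    (hhom : ∀ a b (m : ℕ), (m : ℤ) = e a + e b + ε → IsWeightedHomogeneous w (M a b) m)
    (T : Finset (Fin N)) (z : Fin n → kˣ) (τ : kˣ)
    (hz : ∀ a b, z a * z b ≠ τ → ∀ p : Fin N → k, (∀ i, i ∉ T → p i = 0) → eval p (M a b) = 0)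
    (hT : ∀ p : Fin N → k, (∀ i, i ∉ T → p i = 0) →
      (∀ R C : Fin (2 * q + 1) → Fin n, ((M.map (eval p)).submatrix R C).det = 0) → p = 0)
    {r : ℕ} (hr : r ≤ q) (u v : Fin r → Fin n) (hinj : Function.Injective (Sum.elim u v))
    (huv : ∀ i, z (u i) * z (v i) = τ) :
    T.card ≤ (avoid (edges z τ) (cover u v)).card := by
  classical
  obtain ⟨K, iK, iA, Y, hYd, hYs, hYz, hYr, hYi⟩ := hGen k n r z τ u v hinj huv
  set E := edges z τ with hE
  have hElt : ∀ x ∈ E, x.1 < x.2 := fun x hx => (mem_edges.1 hx).1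
  have hsupp : ∀ a b, a ≠ b → (a, b) ∉ E → (b, a) ∉ E → z a * z b ≠ τ := by
    intro a b hab h1 h2 h3
    rcases lt_or_gt_of_ne hab with h4 | h4
    · exact h1 (mem_edges.2 ⟨h4, h3⟩)
    · exact h2 (mem_edges.2 ⟨h4, by rw [mul_comm]; exact h3⟩)
  let J : Finset {x // x ∈ E} :=
    univ.filter fun x => x.1.1 ∈ cover u v ∨ x.1.2 ∈ cover u v
  have key := hDim k {i // i ∈ T} {x // x ∈ E} ((Fin (2 * q + 1) → Fin n) ×
      (Fin (2 * q + 1) → Fin n)) (fun i => w i.1) (fun x => (e x.1.1 + e x.1.2 + ε).toNat)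
    (fun x => res T (M x.1.1 x.1.2)) (fun l => ((gm (k := k) E).submatrix l.1 l.2).det)
    (fun l => (∑ i, (e (l.1 i) + e (l.2 i) + ε)).toNat) K (fun x => Y x.1.1 x.1.2) J
    (fun i => hw _) (fun x => by have := hpos _ _ (hElt _ x.2).ne; omega)
    (fun x => res_hom T (hhom _ _ _ (by
      have := hpos _ _ (hElt _ x.2).ne
      omega)))
    (fun l => minor_hom hElt hpos _ _) ?_ ?_ ?_
  · -- conclusion
    have h1 : Fintype.card {i // i ∈ T} = T.card := Fintype.card_coe T
    have h2 : Fintype.card {x // x ∈ E} = E.card := Fintype.card_coe E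
    have h3 : J.card = (E.filter fun x => x.1 ∈ cover u v ∨ x.2 ∈ cover u v).card := by
      refine Finset.card_bij (fun x _ => x.1) ?_ ?_ ?_
      · intro x hx
        exact Finset.mem_filter.2 ⟨x.2, (Finset.mem_filter.1 hx).2⟩
      · intro x _ y _ h
        exact Subtype.ext h
      · intro x hx
        exact ⟨⟨x, (Finset.mem_filter.1 hx).1⟩,
          Finset.mem_filter.2 ⟨mem_univ _, (Finset.mem_filter.1 hx).2⟩, rfl⟩
    have h4 := Finset.card_filter_add_card_filter_not (s := E)
      (fun x => x.1 ∈ cover u v ∨ x.2 ∈ cover u v)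
    have h5 : avoid E (cover u v) = E.filter fun x => ¬ (x.1 ∈ cover u v ∨ x.2 ∈ cover u v) := by
      unfold avoid
      ext x
      simp only [mem_filter, not_or]
    rw [h5]
    rw [h1, h2, h3] at key
    omega
  · -- zeros of the minors
    intro p hp
    have h1 : ext0 T p = 0 := by
      apply hT _ (fun i hi => ext0_of_not_mem p hi)
      intro R C
      have h2 := hp (R, C)
      have h3 : eval (fun j : {x // x ∈ E} => eval p (res T (M j.1.1 j.1.2)))
          (((gm (k := k) E).submatrix R C).det) =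
          ((M.map (eval (ext0 T p))).submatrix R C).det := by
        rw [← coe_aeval_eq_eval, RingHom.coe_coe, AlgHom.map_det]
        congr 1
        ext a b
        have h4 := aeval_gm (k := k) (E := E) (M.map (eval (ext0 T p))) (fun a b => by
            simp only [Matrix.map_apply]
            rw [hskew, map_neg]) (fun a b h5 h6 => by
            simp only [Matrix.map_apply]
            rcases eq_or_ne a b with rfl | hab
            · rw [hdiag, map_zero]
            · exact hz a b (hsupp a b hab h5 h6) _ (fun i hi => ext0_of_not_mem p hi)) (R a) (C b)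
        simp only [AlgHom.mapMatrix_apply, Matrix.map_apply, Matrix.submatrix_apply, eval_res] at h4 ⊢
        exact h4
      rw [h3] at h2
      exact h2
    funext i
    have h2 := congrFun h1 i.1
    simpa [ext0, i.2] using h2
  · -- the generic point
    intro l
    have h3 : aeval (fun j : {x // x ∈ E} => Y j.1.1 j.1.2)
        (((gm (k := k) E).submatrix l.1 l.2).det) = (Y.submatrix l.1 l.2).det := by
      rw [AlgHom.map_det]
      congr 1
      ext a b
      have h4 := aeval_gm (k := k) (E := E) Y hYs (fun a b h5 h6 => by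
            rcases eq_or_ne a b with rfl | hab
            · exact hYd a
            · exact hYz a b (hsupp a b hab h5 h6)) (l.1 a) (l.2 b)
      simp only [AlgHom.mapMatrix_apply, Matrix.map_apply, Matrix.submatrix_apply] at h4 ⊢
      exact h4
    rw [h3]
    exact det_zero_of_rank Y (by omega) _ _
  · -- algebraic independence
    let φ : {j // j ∈ J} → {x // x ∈ meet z τ (cover u v)} := fun j => ⟨j.1.1, by
      have h1 := (Finset.mem_filter.1 j.2).2
      have h2 := mem_edges.1 j.1.2
      unfold meet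
      rw [Finset.mem_filter]
      exact ⟨mem_univ _, h2.1, h2.2, h1⟩⟩
    have hφ : Function.Injective φ := by
      intro a b h
      have h1 := congrArg Subtype.val h
      exact Subtype.ext (Subtype.ext h1)
    exact hYi.comp φ hφ

end Pool.Agent.Q35.PX
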