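import Mathlib

/-!
# Symmetric determinantal formats: statements of the jobs

Project PX (helper35), second part: section rings of Fano type from the minors of size `r + 1` of a homogeneous
symmetric matrix of size `n`, all `r` and `n`.
-/

set_option autoImplicit false

namespace Pool.Agent.Q35.PX

open MvPolynomial Finset

/-- `U` is the set of the vertices of a matching of the graph with loops `z a z b = τ`: it has an involution
`σ` with `z a z (σ a) = τ`. -/
def IsMatch {n : ℕ} {k : Type} [Field k] (z : Fin n → kˣ) (τ : kˣ) (U : Finset (Fin n)) : Prop :=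
  ∃ σ : Fin n → Fin n, ∀ a ∈ U, σ a ∈ U ∧ σ (σ a) = a ∧ z a * z (σ a) = τ

/-- the pairs `a ≤ b` with `z a z b = τ` which meet the set `U` -/
noncomputable def meetS {n : ℕ} {k : Type} [Field k] (z : Fin n → kˣ) (τ : kˣ)
    (U : Finset (Fin n)) : Finset (Fin n × Fin n) := by
  classical
  exact univ.filter fun x => x.1 ≤ x.2 ∧ z x.1 * z x.2 = τ ∧ (x.1 ∈ U ∨ x.2 ∈ U)

/-- the pairs `a ≤ b` with `z a z b = τ` which avoid the set `U` -/
noncomputable def avoidS {n : ℕ} {k : Type} [Field k] (z : Fin n → kˣ) (τ : kˣ)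
    (U : Finset (Fin n)) : Finset (Fin n × Fin n) := by
  classical
  exact univ.filter fun x => x.1 ≤ x.2 ∧ z x.1 * z x.2 = τ ∧ x.1 ∉ U ∧ x.2 ∉ U

/-- the ordered pairs with `z a z b = τ` -/
noncomputable def ordS {n : ℕ} {k : Type} [Field k] (z : Fin n → kˣ) (τ : kˣ) :
    Finset (Fin n × Fin n) := by
  classical
  exact univ.filter fun x => z x.1 * z x.2 = τ

/-- JOB PX-GENS. A generic symmetric matrix of rank `≤ |U|` whose entries vanish outside the pairs with
`z a z b = τ`, for the vertex set `U` of a matching (loops allowed): all the entries in the pairs which meet `U`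
are algebraically independent. -/
def S_GenS : Prop := ∀ (k : Type) [Field k] [CharZero k] (n : ℕ) (z : Fin n → kˣ) (τ : kˣ)
  (U : Finset (Fin n)), IsMatch z τ U →
  ∃ (K : Type) (_ : Field K) (_ : Algebra k K) (Y : Matrix (Fin n) (Fin n) K),
    (∀ a b, Y b a = Y a b) ∧ (∀ a b, z a * z b ≠ τ → Y a b = 0) ∧ Y.rank ≤ U.card ∧
    AlgebraicIndependent k (fun x : {x // x ∈ meetS z τ U} => Y x.1.1 x.1.2)

/-- JOB PX-MATS. If `t` is at most the number of the edges and loops `a ≤ b`, `z a z b = τ`, which avoid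
`U`, for all vertex sets `U` of matchings with `|U| ≤ r`, then `2 n t ≤ (n - r + 1) |O|`, where `O` is the
set of ordered pairs `(a, b)` with `z a z b = τ`. -/
def S_MatS : Prop := ∀ (k : Type) [Field k] (n r t : ℕ) (z : Fin n → kˣ) (τ : kˣ), 1 ≤ r → r ≤ n →
  (∀ U : Finset (Fin n), IsMatch z τ U → U.card ≤ r → t ≤ (avoidS z τ U).card) →
  2 * n * t ≤ (n - r + 1) * (ordS z τ).card

end Pool.Agent.Q35.PX
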