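import Pool.Agent.Q35.PX.Cnt
import Pool.Agent.Q35.PX.StmS

/-!
# Symmetric determinantal formats: the count of the fixed coordinates for one matching
-/

set_option autoImplicit false

namespace Pool.Agent.Q35.PX

open MvPolynomial Finset

variable {k : Type} [Field k]

/-- the generic symmetric matrix with support in `E` -/
noncomputable def gs {n : ℕ} (E : Finset (Fin n × Fin n)) :
    Matrix (Fin n) (Fin n) (MvPolynomial {x // x ∈ E} k) := by
  classical
  exact fun a b => if h : (a, b) ∈ E then X ⟨(a, b), h⟩ else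
    if h' : (b, a) ∈ E then X ⟨(b, a), h'⟩ else 0

/-- the evaluation of the generic matrix -/
theorem aeval_gs {n : ℕ} {E : Finset (Fin n × Fin n)} {A : Type} [CommRing A] [Algebra k A]
    (Y : Matrix (Fin n) (Fin n) A) (hsymm : ∀ a b, Y b a = Y a b)
    (hsupp : ∀ a b, (a, b) ∉ E → (b, a) ∉ E → Y a b = 0) (a b : Fin n) :
    aeval (fun x : {x // x ∈ E} => Y x.1.1 x.1.2) (gs (k := k) E a b) = Y a b := by
  unfold gs
  split_ifs with h h'
  · rw [aeval_X]
  · rw [aeval_X]
    exact (hsymm b a).symm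
  · rw [map_zero, hsupp a b h h']

theorem gs_hom {n : ℕ} {E : Finset (Fin n × Fin n)} (e : Fin n → ℤ) (ε : ℤ) (a b : Fin n) :
    IsWeightedHomogeneous (fun x : {x // x ∈ E} => (e x.1.1 + e x.1.2 + ε).toNat)
      (gs (k := k) E a b) (e a + e b + ε).toNat := by
  unfold gs
  split_ifs with h h'
  · exact isWeightedHomogeneous_X k (fun x : {x // x ∈ E} => (e x.1.1 + e x.1.2 + ε).toNat)
      ⟨(a, b), h⟩
  · have h1 := isWeightedHomogeneous_X k
      (fun x : {x // x ∈ E} => (e x.1.1 + e x.1.2 + ε).toNat) ⟨(b, a), h'⟩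
    have h2 : (e a + e b + ε).toNat = (e b + e a + ε).toNat := by rw [add_comm (e a)]
    rw [h2]
    exact h1
  · exact isWeightedHomogeneous_zero _ _ _

theorem minorS_hom {n : ℕ} {E : Finset (Fin n × Fin n)} {e : Fin n → ℤ}
    {ε : ℤ} (hpos : ∀ a b, 0 < e a + e b + ε) {r : ℕ} (R C : Fin r → Fin n) :
    IsWeightedHomogeneous (fun x : {x // x ∈ E} => (e x.1.1 + e x.1.2 + ε).toNat)
      ((gs (k := k) E).submatrix R C).det (∑ i, (e (R i) + e (C i) + ε)).toNat := by
  classical
  rw [Matrix.det_apply]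
  refine IsWeightedHomogeneous.sum _ _ _ (fun σ _ => ?_)
  have key : IsWeightedHomogeneous (fun x : {x // x ∈ E} => (e x.1.1 + e x.1.2 + ε).toNat)
      (∏ i, (gs (k := k) E).submatrix R C (σ i) i) (∑ i, (e (R i) + e (C i) + ε)).toNat := by
    have h1 : (∑ i, (e (R i) + e (C i) + ε)).toNat
        = ∑ i, (e (R (σ i)) + e (C i) + ε).toNat := by
      have h2 : ∀ i, ((e (R (σ i)) + e (C i) + ε).toNat : ℤ) = e (R (σ i)) + e (C i) + ε :=
        fun i => Int.toNat_of_nonneg (hpos _ _).le
      have h3 : ((∑ i, (e (R (σ i)) + e (C i) + ε).toNat : ℕ) : ℤ)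
          = ∑ i, (e (R i) + e (C i) + ε) := by
        rw [Nat.cast_sum, Finset.sum_congr rfl (fun i _ => h2 i)]
        simp only [Finset.sum_add_distrib]
        rw [Equiv.sum_comp σ (fun i => e (R i))]
      rw [← h3, Int.toNat_natCast]
    rw [h1]
    exact IsWeightedHomogeneous.prod _ _ _ (fun i _ => gs_hom e ε _ _)
  rw [← mem_weightedHomogeneousSubmodule] at key ⊢
  rcases Int.units_eq_one_or (Equiv.Perm.sign σ) with h | h
  · rw [h, one_smul]; exact key
  · rw [h, Units.neg_smul, one_smul]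
    exact Submodule.neg_mem _ key

/-- the pairs `a ≤ b` with `z a z b = τ` -/
noncomputable def edgesS {n : ℕ} (z : Fin n → kˣ) (τ : kˣ) : Finset (Fin n × Fin n) := by
  classical
  exact univ.filter fun x => x.1 ≤ x.2 ∧ z x.1 * z x.2 = τ

theorem mem_edgesS {n : ℕ} {z : Fin n → kˣ} {τ : kˣ} {x : Fin n × Fin n} :
    x ∈ edgesS z τ ↔ x.1 ≤ x.2 ∧ z x.1 * z x.2 = τ := by
  classical
  simp [edgesS]

theorem countS (hDim : S_Dim) (hGen : S_GenS) [IsAlgClosed k] [CharZero k] {N n r : ℕ}
    {w : Fin N → ℕ} (hw : ∀ i, 0 < w i) {e : Fin n → ℤ} {ε : ℤ}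
    (hpos : ∀ a b, 0 < e a + e b + ε)
    (M : Matrix (Fin n) (Fin n) (MvPolynomial (Fin N) k))
    (hsymm : ∀ a b, M b a = M a b)
    (hhom : ∀ a b (m : ℕ), (m : ℤ) = e a + e b + ε → IsWeightedHomogeneous w (M a b) m)
    (T : Finset (Fin N)) (z : Fin n → kˣ) (τ : kˣ)
    (hz : ∀ a b, z a * z b ≠ τ → ∀ p : Fin N → k, (∀ i, i ∉ T → p i = 0) → eval p (M a b) = 0)
    (hT : ∀ p : Fin N → k, (∀ i, i ∉ T → p i = 0) →
      (∀ R C : Fin (r + 1) → Fin n, ((M.map (eval p)).submatrix R C).det = 0) → p = 0)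
    (U : Finset (Fin n)) (hU : IsMatch z τ U) (hUr : U.card ≤ r) :
    T.card ≤ (avoidS z τ U).card := by
  classical
  obtain ⟨K, iK, iA, Y, hYs, hYz, hYr, hYi⟩ := hGen k n z τ U hU
  set E := edgesS z τ with hE
  have hsupp : ∀ a b, (a, b) ∉ E → (b, a) ∉ E → z a * z b ≠ τ := by
    intro a b h1 h2 h3
    rcases le_total a b with h4 | h4
    · exact h1 (mem_edgesS.2 ⟨h4, h3⟩)
    · exact h2 (mem_edgesS.2 ⟨h4, by rw [mul_comm]; exact h3⟩)
  let J : Finset {x // x ∈ E} :=
    univ.filter fun x => x.1.1 ∈ U ∨ x.1.2 ∈ U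
  have key := hDim k {i // i ∈ T} {x // x ∈ E} ((Fin (r + 1) → Fin n) ×
      (Fin (r + 1) → Fin n)) (fun i => w i.1) (fun x => (e x.1.1 + e x.1.2 + ε).toNat)
    (fun x => res T (M x.1.1 x.1.2)) (fun l => ((gs (k := k) E).submatrix l.1 l.2).det)
    (fun l => (∑ i, (e (l.1 i) + e (l.2 i) + ε)).toNat) K (fun x => Y x.1.1 x.1.2) J
    (fun i => hw _) (fun x => by have := hpos x.1.1 x.1.2; omega)
    (fun x => res_hom T (hhom _ _ _ (by
      have := hpos x.1.1 x.1.2
      omega)))
    (fun l => minorS_hom hpos _ _) ?_ ?_ ?_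
  · -- conclusion
    have h1 : Fintype.card {i // i ∈ T} = T.card := Fintype.card_coe T
    have h2 : Fintype.card {x // x ∈ E} = E.card := Fintype.card_coe E
    have h3 : J.card = (E.filter fun x => x.1 ∈ U ∨ x.2 ∈ U).card := by
      refine Finset.card_bij (fun x _ => x.1) ?_ ?_ ?_
      · intro x hx
        exact Finset.mem_filter.2 ⟨x.2, (Finset.mem_filter.1 hx).2⟩
      · intro x _ y _ h
        exact Subtype.ext h
      · intro x hx
        exact ⟨⟨x, (Finset.mem_filter.1 hx).1⟩,
          Finset.mem_filter.2 ⟨mem_univ _, (Finset.mem_filter.1 hx).2⟩, rfl⟩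
    have h4 := Finset.card_filter_add_card_filter_not (s := E) (fun x => x.1 ∈ U ∨ x.2 ∈ U)
    have h5 : avoidS z τ U = E.filter fun x => ¬ (x.1 ∈ U ∨ x.2 ∈ U) := by
      unfold avoidS
      ext x
      rw [mem_filter, mem_filter, hE, mem_edgesS]
      simp only [mem_univ, true_and, not_or, and_assoc]
    rw [h5]
    rw [h1, h2, h3] at key
    omega
  · -- zeros of the minors
    intro p hp
    have h1 : ext0 T p = 0 := by
      apply hT _ (fun i hi => ext0_of_not_mem p hi)
      intro R C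
      have h2 := hp (R, C)
      have h3 : eval (fun j : {x // x ∈ E} => eval p (res T (M j.1.1 j.1.2)))
          (((gs (k := k) E).submatrix R C).det) =
          ((M.map (eval (ext0 T p))).submatrix R C).det := by
        rw [← coe_aeval_eq_eval, RingHom.coe_coe, AlgHom.map_det]
        congr 1
        ext a b
        have h4 := aeval_gs (k := k) (E := E) (M.map (eval (ext0 T p))) (fun a b => by
            simp only [Matrix.map_apply]
            rw [hsymm]) (fun a b h5 h6 => by
            simp only [Matrix.map_apply]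
            exact hz a b (hsupp a b h5 h6) _ (fun i hi => ext0_of_not_mem p hi)) (R a) (C b)
        simp only [AlgHom.mapMatrix_apply, Matrix.map_apply, Matrix.submatrix_apply, eval_res] at h4 ⊢
        exact h4
      rw [h3] at h2
      exact h2
    funext i
    have h2 := congrFun h1 i.1
    simpa [ext0, i.2] using h2
  · -- the generic point
    intro l
    have h3 : aeval (fun j : {x // x ∈ E} => Y j.1.1 j.1.2)
        (((gs (k := k) E).submatrix l.1 l.2).det) = (Y.submatrix l.1 l.2).det := by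
      rw [AlgHom.map_det]
      congr 1
      ext a b
      have h4 := aeval_gs (k := k) (E := E) Y hYs
        (fun a b h5 h6 => hYz a b (hsupp a b h5 h6)) (l.1 a) (l.2 b)
      simp only [AlgHom.mapMatrix_apply, Matrix.map_apply, Matrix.submatrix_apply] at h4 ⊢
      exact h4
    rw [h3]
    exact det_zero_of_rank Y (by omega) _ _
  · -- algebraic independence
    let φ : {j // j ∈ J} → {x // x ∈ meetS z τ U} := fun j => ⟨j.1.1, by
      have h1 := (Finset.mem_filter.1 j.2).2
      have h2 := mem_edgesS.1 j.1.2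
      unfold meetS
      rw [Finset.mem_filter]
      exact ⟨mem_univ _, h2.1, h2.2, h1⟩⟩
    have hφ : Function.Injective φ := by
      intro a b h
      have h1 := congrArg Subtype.val h
      exact Subtype.ext (Subtype.ext h1)
    exact hYi.comp φ hφ

end Pool.Agent.Q35.PX
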