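import Mathlib

/-!
# Pfaffian formats: statements of the jobs

Project PX (helper35): section rings of Fano type from the Pfaffians of size `2 q + 2` of a homogeneous
alternating matrix of size `n`, all `q` and `n`.
-/

set_option autoImplicit false

namespace Pool.Agent.Q35.PX

open MvPolynomial Finset

/-- JOB PX-DIM. Dimension count for the preimage of a weighted homogeneous cone. `H l` are weighted
homogeneous equations of a cone `V` in the affine space with coordinates `ι`; `y` is a point of `V` over an
extension field `K` such that the coordinates in `J` are algebraically independent over `k`; `f` is a weighted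
homogeneous map from the affine space with coordinates `σ` with `f⁻¹(V) = {0}`. Then `|σ| + |J| ≤ |ι|`. -/
def S_Dim : Prop := ∀ (k : Type) [Field k] [IsAlgClosed k] (σ ι Λ : Type) [Fintype σ] [Fintype ι]
  (w : σ → ℕ) (d : ι → ℕ) (f : ι → MvPolynomial σ k) (H : Λ → MvPolynomial ι k) (m : Λ → ℕ)
  (K : Type) [Field K] [Algebra k K] (y : ι → K) (J : Finset ι),
  (∀ i, 0 < w i) → (∀ j, 0 < d j) → (∀ j, IsWeightedHomogeneous w (f j) (d j)) →
  (∀ l, IsWeightedHomogeneous d (H l) (m l)) →
  (∀ p : σ → k, (∀ l, eval (fun j => eval p (f j)) (H l) = 0) → p = 0) →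
  (∀ l, aeval y (H l) = 0) → AlgebraicIndependent k (fun j : {j // j ∈ J} => y j) →
  Fintype.card σ + J.card ≤ Fintype.card ι

/-- The set of the vertices of a list of `q` pairs. -/
def cover {n q : ℕ} (u v : Fin q → Fin n) : Finset (Fin n) := univ.image u ∪ univ.image v

/-- the pairs `a < b` with `z a z b = τ` which meet the set `U` -/
noncomputable def meet {n : ℕ} {k : Type} [Field k] (z : Fin n → kˣ) (τ : kˣ) (U : Finset (Fin n)) :
    Finset (Fin n × Fin n) := by
  classical
  exact univ.filter fun x => x.1 < x.2 ∧ z x.1 * z x.2 = τ ∧ (x.1 ∈ U ∨ x.2 ∈ U)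

/-- JOB PX-GEN. A generic alternating matrix of rank `≤ 2 q` whose entries vanish outside the pairs with
`z a z b = τ`: if the `q` pairs `(u i, v i)` are disjoint and `z (u i) z (v i) = τ`, there is an alternating
matrix over an extension field of `k` with support in these pairs, of rank `≤ 2 q`, for which all the
entries in pairs which meet the `2 q` vertices `u i`, `v i` are algebraically independent. -/
def S_Gen : Prop := ∀ (k : Type) [Field k] [CharZero k] (n q : ℕ) (z : Fin n → kˣ) (τ : kˣ)
  (u v : Fin q → Fin n), Function.Injective (Sum.elim u v) → (∀ i, z (u i) * z (v i) = τ) →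
  ∃ (K : Type) (_ : Field K) (_ : Algebra k K) (Y : Matrix (Fin n) (Fin n) K),
    (∀ a, Y a a = 0) ∧ (∀ a b, Y b a = - Y a b) ∧ (∀ a b, z a * z b ≠ τ → Y a b = 0) ∧
    Y.rank ≤ 2 * q ∧
    AlgebraicIndependent k (fun x : {x // x ∈ meet z τ (cover u v)} => Y x.1.1 x.1.2)

/-- the edges of a graph `E` on `Fin n` which avoid the set `U` -/
noncomputable def avoid {n : ℕ} (E : Finset (Fin n × Fin n)) (U : Finset (Fin n)) :
    Finset (Fin n × Fin n) := by
  classical
  exact E.filter fun x => x.1 ∉ U ∧ x.2 ∉ U

/-- JOB PX-MAT. Let `E` be the edges (pairs `a < b`) of a graph on `n` vertices, `2 q < n`, and let `t` be at most the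
number of edges which avoid the vertices of a matching, for all matchings of size `p ≤ q`. If `n` is odd
then `(n - 1) t ≤ (n - 1 - 2 q) |E|`. If `n` is even then `(n - 2) t ≤ (n - 2 - 2 q) |E| + 2 q c`, where `c = 1` if
the graph has a perfect matching and `c = 0` otherwise. -/
def S_Mat : Prop := ∀ (n q t : ℕ) (E : Finset (Fin n × Fin n)), 1 ≤ q → 2 * q < n →
  (∀ x ∈ E, x.1 < x.2) →
  (∀ p ≤ q, ∀ u v : Fin p → Fin n, Function.Injective (Sum.elim u v) → (∀ i, (u i, v i) ∈ E) →
    t ≤ (avoid E (cover u v)).card) →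
  (Odd n → (n - 1) * t ≤ (n - 1 - 2 * q) * E.card) ∧
  (Even n → (n - 2) * t ≤ (n - 2 - 2 * q) * E.card ∨
    ((n - 2) * t ≤ (n - 2 - 2 * q) * E.card + 2 * q ∧
      ∃ u v : Fin (n / 2) → Fin n, Function.Injective (Sum.elim u v) ∧ ∀ i, (u i, v i) ∈ E))

end Pool.Agent.Q35.PX
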